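import Pool.Agent.Helper55_HK.Crossing

open Pool.Agent.Helper55_HK unitInterval

/-- If the Hirzebruch-Kummer covering `HK_C(n)` is a `K(π,1)`, two different points over a double
point of two lines `A`, `B` are never joined by a path over `A` and a path over `B` which are
homotopic. -/
theorem Pool.Agent.Results.MP_02294b_ag.CrossingCriterion.result {n : ℕ} (hn : 2 ≤ n) {k : ℕ}
    (a : Fin k → Fin 3 → ℂ) (ha : IsConfig a) (A B : Fin k) (hAB : A ≠ B) (o : Fin 3 → ℂ)
    (hdouble : ∀ i, fm (a i) o = 0 ↔ i = A ∨ i = B) (D : C(Square, HK n a))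
    (hA : ∀ s, OnLine A (D (0, s))) (hB : ∀ s, OnLine B (D (1, s)))
    (hbot : ∀ x, D (x, 0) = D (0, 0)) (htop : ∀ x, D (x, 1) = D (0, 1))
    (hne : D (0, 0) ≠ D (0, 1)) : ¬ IsKPiOne (HK n a) :=
  not_isKPiOne_of_crossing hn ha hAB hdouble D hA hB hbot htop hne
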