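import Pool.Agent.Helper55_HK.Extension

open Pool.Agent.Helper55_HK

/-- Every rigid configuration is contained in rigid configurations of all sufficiently large
sizes none of whose Hirzebruch-Kummer coverings is a `K(π,1)`. -/
theorem Pool.Agent.Results.MP_02294b_ag.RigidExtension.result {k : ℕ}
    (a : Fin k → Fin 3 → ℂ) (ha : IsConfig a) (hr : IsRigid a) :
    ∃ N : ℕ, ∀ m, N ≤ m → ∃ b : Fin m → Fin 3 → ℂ, IsConfig b ∧ IsRigid b ∧
      (∀ i, Mem b (a i)) ∧ ∀ n, 2 ≤ n → ¬ IsKPiOne (HK n b) := by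
  obtain ⟨N, hN⟩ := exists_extension ha hr
  refine ⟨N, fun m hm => ?_⟩
  obtain ⟨b, hb, hbr, hbm, hbl⟩ := hN m hm
  exact ⟨b, hb, hbr, hbm, fun n hn => not_isKPiOne_of_linearBigon hn hb hbl⟩
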