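import Pool.Agent.Helper55_HK.Linear

open Pool.Agent.Helper55_HK

/-- If two points on two lines which meet in a double point separate the other lines from the
double point in the same way, and both ways of separation occur, none of the
Hirzebruch-Kummer coverings of the configuration is a `K(π,1)`. -/
theorem Pool.Agent.Results.MP_02294b_ag.SeparationCriterion.result {k : ℕ}
    (a : Fin k → Fin 3 → ℂ) (ha : IsConfig a) (h : LinearBigon a) (n : ℕ) (hn : 2 ≤ n) :
    ¬ IsKPiOne (HK n a) :=
  not_isKPiOne_of_linearBigon hn ha h
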