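import Pool.Agent.Helper55_HK.Triangle

open Pool.Agent.Helper55_HK

/-- If a configuration of at least four lines has a triangle with sides on three of its lines
which otherwise avoids all lines, none of its Hirzebruch-Kummer coverings is a `K(π,1)`. -/
theorem Pool.Agent.Results.MP_02294b_ag.TriangleCriterion.result {k : ℕ} (hk : 4 ≤ k)
    (a : Fin k → Fin 3 → ℂ) (ha : IsConfig a) (A B T : Fin k) (δ : C(Square, Fin 3 → ℂ))
    (hδ : IsTriangle a A B T δ) (n : ℕ) (hn : 2 ≤ n) : ¬ IsKPiOne (HK n a) :=
  not_isKPiOne_of_triangle hn hk ha hδ
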